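import Pool.Agent.W669.HD.Stm2

/-!
# Two factors which live on four vectors
-/

set_option autoImplicit false

namespace Pool.Agent.W740.HD

open Pool.Agent.W666.GB Pool.Agent.W669.HD Finset

variable {m : ℕ}

theorem expand (u v : Fin 4 → Fin 4 → ℝ) (K' L' : Q4) :
    (∑ p, ∑ q, ∑ r, ∑ s, u 0 p * u 1 q * v 0 r * v 1 s * K' p q r s) *
      (∑ p, ∑ q, ∑ r, ∑ s, u 2 p * u 3 q * v 2 r * v 3 s * L' p q r s) =
    ∑ F : Fin 4 → Fin 4, ∑ G : Fin 4 → Fin 4,
      K' (F 0) (F 1) (G 0) (G 1) * L' (F 2) (F 3) (G 2) (G 3) *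
        ((∏ i, u i (F i)) * ∏ i, v i (G i)) := by
  simp only [← Fintype.sum_prod_type']
  rw [Finset.sum_mul_sum]
  simp only [← Fintype.sum_prod_type']
  refine Fintype.sum_equiv
    ⟨fun x => (![x.1.1, x.1.2.1, x.2.1, x.2.2.1], ![x.1.2.2.1, x.1.2.2.2, x.2.2.2.1, x.2.2.2.2]),
      fun y => ((y.1 0, y.1 1, y.2 0, y.2 1), (y.1 2, y.1 3, y.2 2, y.2 3)),
      fun x => rfl, fun y => ?_⟩ _ _ ?_
  · refine Prod.ext ?_ ?_
    · funext i
      fin_cases i <;> rfl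
    · funext i
      fin_cases i <;> rfl
  · rintro ⟨⟨p, q, r, s⟩, p', q', r', s'⟩
    change u 0 p * u 1 q * v 0 r * v 1 s * K' p q r s *
      (u 2 p' * u 3 q' * v 2 r' * v 3 s' * L' p' q' r' s') =
      K' p q r s * L' p' q' r' s' *
        ((∏ i, u i (![p, q, p', q'] i)) * ∏ i, v i (![r, s, r', s'] i))
    rw [Fin.prod_univ_four, Fin.prod_univ_four]
    change u 0 p * u 1 q * v 0 r * v 1 s * K' p q r s *
      (u 2 p' * u 3 q' * v 2 r' * v 3 s' * L' p' q' r' s') =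
      K' p q r s * L' p' q' r' s' *
        ((u 0 p * u 1 q * u 2 p' * u 3 q') * (v 0 r * v 1 s * v 2 r' * v 3 s'))
    ring

/-- the function does not depend on the values of the permutation in the slots -/
def OffSlot (b₀ b₁ : Fin m) (h : Equiv.Perm (Fin m × Bool) → ℝ) : Prop :=
  ∀ σ σ' : Equiv.Perm (Fin m × Bool), (∀ x : Fin m × Bool, x.1 ≠ b₀ → x.1 ≠ b₁ → σ x = σ' x) →
      h σ = h σ'

/-- the alternating sum -/
noncomputable def gs (a : Fin m × Bool → Fin 4 → ℝ) (b₀ b₁ : Fin m)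
    (h : Equiv.Perm (Fin m × Bool) → ℝ) (F : Fin 4 → Fin 4) : ℝ :=
  ∑ σ : Equiv.Perm (Fin m × Bool), sn σ * (h σ * ∏ i : Fin 4, a (σ (slot b₀ b₁ i)) (F i))

theorem gs_comp (a : Fin m × Bool → Fin 4 → ℝ) {b₀ b₁ : Fin m} (hb : b₁ ≠ b₀)
    {h : Equiv.Perm (Fin m × Bool) → ℝ} (hh : OffSlot b₀ b₁ h) (F : Fin 4 → Fin 4)
    (π : Equiv.Perm (Fin 4)) : gs a b₀ b₁ h (F ∘ π) = sn π * gs a b₀ b₁ h F := by
  classical
  set E : Fin 4 ↪ Fin m × Bool := ⟨slot b₀ b₁, slot_inj hb⟩ with hE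
  set q : Equiv.Perm (Fin m × Bool) := π.viaFintypeEmbedding E with hq
  have hsq : sn q = sn π := by
    simp only [sn, hq, Equiv.Perm.viaFintypeEmbedding_sign]
  have q1 : ∀ i, q (slot b₀ b₁ i) = slot b₀ b₁ (π i) := by
    intro i
    exact Equiv.Perm.viaFintypeEmbedding_apply_image π E i
  have q2 : ∀ x : Fin m × Bool, x.1 ≠ b₀ → x.1 ≠ b₁ → q x = x := by
    intro x h0 h1
    apply Equiv.Perm.viaFintypeEmbedding_apply_notMem_range
    rintro ⟨i, hi⟩
    have h2 : (slot b₀ b₁ i).1 = x.1 := congrArg Prod.fst hi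
    fin_cases i <;> simp [slot] at h2 <;> [exact h0 h2.symm; exact h0 h2.symm;
      exact h1 h2.symm; exact h1 h2.symm]
  unfold gs
  rw [Finset.mul_sum, ← Equiv.sum_comp (Equiv.mulRight q)]
  refine Finset.sum_congr rfl fun σ _ => ?_
  simp only [Equiv.coe_mulRight]
  have z1 : h (σ * q) = h σ := by
    refine hh _ _ fun x h0 h1 => ?_
    rw [Equiv.Perm.mul_apply, q2 x h0 h1]
  have z2 : ∏ i : Fin 4, a ((σ * q) (slot b₀ b₁ i)) ((F ∘ π) i) =
      ∏ i : Fin 4, a (σ (slot b₀ b₁ i)) (F i) := by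
    rw [← Equiv.prod_comp π (fun i => a (σ (slot b₀ b₁ i)) (F i))]
    refine Finset.prod_congr rfl fun i _ => ?_
    rw [Equiv.Perm.mul_apply, q1, Function.comp_apply]
  rw [z1, z2, sn_mul, hsq]
  ring

theorem sn_swap {i j : Fin 4} (h : i ≠ j) : sn (Equiv.swap i j) = -1 := by
  simp [sn, Equiv.Perm.sign_swap h]

theorem gs_zero (a : Fin m × Bool → Fin 4 → ℝ) {b₀ b₁ : Fin m} (hb : b₁ ≠ b₀)
    {h : Equiv.Perm (Fin m × Bool) → ℝ} (hh : OffSlot b₀ b₁ h) (F : Fin 4 → Fin 4)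
    (hF : ¬ Function.Injective F) : gs a b₀ b₁ h F = 0 := by
  simp only [Function.Injective, not_forall] at hF
  obtain ⟨i, j, hij, hne⟩ := hF
  have h1 : F ∘ (Equiv.swap i j) = F := by
    funext k
    simp only [Function.comp_apply]
    rcases eq_or_ne k i with rfl | hki
    · rw [Equiv.swap_apply_left, hij]
    · rcases eq_or_ne k j with rfl | hkj
      · rw [Equiv.swap_apply_right, hij]
      · rw [Equiv.swap_apply_of_ne_of_ne hki hkj]
  have h2 := gs_comp a hb hh F (Equiv.swap i j)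
  rw [h1, sn_swap hne] at h2
  linarith

theorem fac : S_FAC := by
  intro m w S C a K' L' b₀ b₁ h0 h1 hb hw hK hL
  classical
  set R : Equiv.Perm (Fin m × Bool) → Equiv.Perm (Fin m × Bool) → ℝ := fun σ τ =>
    ∏ b ∈ (S.erase b₀).erase b₁, C b (σ (b, false)) (σ (b, true)) (τ (b, false)) (τ (b, true))
    with hR
  have R1 : ∀ τ, OffSlot b₀ b₁ (fun σ => R σ τ) := by
    intro τ σ σ' hσ
    simp only [hR]
    refine Finset.prod_congr rfl fun b hbS => ?_
    rw [Finset.mem_erase, Finset.mem_erase] at hbS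
    rw [hσ (b, false) hbS.2.1 hbS.1, hσ (b, true) hbS.2.1 hbS.1]
  have R2 : ∀ σ, OffSlot b₀ b₁ (fun τ => R σ τ) := by
    intro σ τ τ' hτ
    simp only [hR]
    refine Finset.prod_congr rfl fun b hbS => ?_
    rw [Finset.mem_erase, Finset.mem_erase] at hbS
    rw [hτ (b, false) hbS.2.1 hbS.1, hτ (b, true) hbS.2.1 hbS.1]
  -- the double sums
  set X : (Fin 4 → Fin 4) → (Fin 4 → Fin 4) → ℝ := fun F G =>
    ∑ σ : Equiv.Perm (Fin m × Bool), ∑ τ : Equiv.Perm (Fin m × Bool),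
      sn σ * sn τ * (w σ * w τ * R σ τ) *
        ((∏ i, a (σ (slot b₀ b₁ i)) (F i)) * ∏ i, a (τ (slot b₀ b₁ i)) (G i)) with hX
  have X1 : ∀ F G, X F G = ∑ τ : Equiv.Perm (Fin m × Bool),
      (sn τ * w τ * ∏ i, a (τ (slot b₀ b₁ i)) (G i)) *
        gs a b₀ b₁ (fun σ => w σ * R σ τ) F := by
    intro F G
    simp only [hX]
    rw [Finset.sum_comm]
    refine Finset.sum_congr rfl fun τ _ => ?_
    unfold gs
    rw [Finset.mul_sum]
    refine Finset.sum_congr rfl fun σ _ => ?_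
    ring
  have X2 : ∀ F G, X F G = ∑ σ : Equiv.Perm (Fin m × Bool),
      (sn σ * w σ * ∏ i, a (σ (slot b₀ b₁ i)) (F i)) *
        gs a b₀ b₁ (fun τ => w τ * R σ τ) G := by
    intro F G
    simp only [hX]
    refine Finset.sum_congr rfl fun σ _ => ?_
    unfold gs
    rw [Finset.mul_sum]
    refine Finset.sum_congr rfl fun τ _ => ?_
    ring
  have O1 : ∀ τ, OffSlot b₀ b₁ (fun σ => w σ * R σ τ) := by
    intro τ σ σ' hσ
    have e1 := hw σ σ' hσ
    have e2 := R1 τ σ σ' hσ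
    simp only at e2
    simp only [e1, e2]
  have O2 : ∀ σ, OffSlot b₀ b₁ (fun τ => w τ * R σ τ) := by
    intro σ τ τ' hτ
    have e1 := hw τ τ' hτ
    have e2 := R2 σ τ τ' hτ
    simp only at e2
    simp only [e1, e2]
  have Z1 : ∀ F G, ¬ Function.Injective F → X F G = 0 := by
    intro F G hF
    rw [X1]
    refine Finset.sum_eq_zero fun τ _ => ?_
    rw [gs_zero a hb (O1 τ) F hF, mul_zero]
  have Z2 : ∀ F G, ¬ Function.Injective G → X F G = 0 := by
    intro F G hG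
    rw [X2]
    refine Finset.sum_eq_zero fun σ _ => ?_
    rw [gs_zero a hb (O2 σ) G hG, mul_zero]
  have P1 : ∀ (F G : Fin 4 → Fin 4) (π : Equiv.Perm (Fin 4)), X (F ∘ π) G = sn π * X F G := by
    intro F G π
    rw [X1, X1, Finset.mul_sum]
    refine Finset.sum_congr rfl fun τ _ => ?_
    rw [gs_comp a hb (O1 τ) F π]
    ring
  have P2 : ∀ (F G : Fin 4 → Fin 4) (π : Equiv.Perm (Fin 4)), X F (G ∘ π) = sn π * X F G := by
    intro F G π
    rw [X2, X2, Finset.mul_sum]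
    refine Finset.sum_congr rfl fun σ _ => ?_
    rw [gs_comp a hb (O2 σ) G π]
    ring
  have P3 : ∀ π π' : Equiv.Perm (Fin 4), X π π' = sn π * sn π' * X id id := by
    intro π π'
    have e1 : X π π' = X (id ∘ π) (id ∘ π') := rfl
    rw [e1, P1, P2]
    ring
  -- expansion of the left-hand side
  have L1 : gmw w S C = ∑ F : Fin 4 → Fin 4, ∑ G : Fin 4 → Fin 4,
      K' (F 0) (F 1) (G 0) (G 1) * L' (F 2) (F 3) (G 2) (G 3) * X F G := by
    have e1 : ∀ σ τ : Equiv.Perm (Fin m × Bool),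
        sn σ * sn τ * (w σ * w τ *
          ∏ b ∈ S, C b (σ (b, false)) (σ (b, true)) (τ (b, false)) (τ (b, true))) =
        ∑ F : Fin 4 → Fin 4, ∑ G : Fin 4 → Fin 4,
          K' (F 0) (F 1) (G 0) (G 1) * L' (F 2) (F 3) (G 2) (G 3) *
            (sn σ * sn τ * (w σ * w τ * R σ τ) *
            ((∏ i, a (σ (slot b₀ b₁ i)) (F i)) * ∏ i, a (τ (slot b₀ b₁ i)) (G i))) := by
      intro σ τ
      have e2 : ∏ b ∈ S, C b (σ (b, false)) (σ (b, true)) (τ (b, false)) (τ (b, true)) =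
          C b₀ (σ (b₀, false)) (σ (b₀, true)) (τ (b₀, false)) (τ (b₀, true)) *
          (C b₁ (σ (b₁, false)) (σ (b₁, true)) (τ (b₁, false)) (τ (b₁, true)) * R σ τ) := by
        rw [← Finset.mul_prod_erase S _ h0,
          ← Finset.mul_prod_erase (S.erase b₀) _ (Finset.mem_erase.2 ⟨hb, h1⟩)]
      have e3 := expand (fun i p => a (σ (slot b₀ b₁ i)) p) (fun i p => a (τ (slot b₀ b₁ i)) p)
        K' L'
      have e4 : C b₀ (σ (b₀, false)) (σ (b₀, true)) (τ (b₀, false)) (τ (b₀, true)) *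
          C b₁ (σ (b₁, false)) (σ (b₁, true)) (τ (b₁, false)) (τ (b₁, true)) =
          ∑ F : Fin 4 → Fin 4, ∑ G : Fin 4 → Fin 4,
      K' (F 0) (F 1) (G 0) (G 1) * L' (F 2) (F 3) (G 2) (G 3) *
        ((∏ i, a (σ (slot b₀ b₁ i)) (F i)) * ∏ i, a (τ (slot b₀ b₁ i)) (G i)) := by
        rw [hK, hL]
        exact e3
      rw [e2, ← mul_assoc (C b₀ _ _ _ _), e4, Finset.sum_mul, Finset.mul_sum, Finset.mul_sum]
      refine Finset.sum_congr rfl fun F _ => ?_
      rw [Finset.sum_mul, Finset.mul_sum, Finset.mul_sum]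
      refine Finset.sum_congr rfl fun G _ => ?_
      ring
    unfold gmw
    simp only [e1]
    have e5 : ∀ F G : Fin 4 → Fin 4,
        K' (F 0) (F 1) (G 0) (G 1) * L' (F 2) (F 3) (G 2) (G 3) * X F G =
        ∑ σ : Equiv.Perm (Fin m × Bool), ∑ τ : Equiv.Perm (Fin m × Bool),
          K' (F 0) (F 1) (G 0) (G 1) * L' (F 2) (F 3) (G 2) (G 3) *
            (sn σ * sn τ * (w σ * w τ * R σ τ) *
            ((∏ i, a (σ (slot b₀ b₁ i)) (F i)) * ∏ i, a (τ (slot b₀ b₁ i)) (G i))) := by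
      intro F G
      simp only [hX]
      rw [Finset.mul_sum]
      exact Finset.sum_congr rfl fun σ _ => Finset.mul_sum _ _ _
    simp only [e5]
    simp only [← Fintype.sum_prod_type']
    refine Fintype.sum_equiv ⟨fun x => (x.2.2.1, x.2.2.2, x.1, x.2.1),
        fun x => (x.2.2.1, x.2.2.2, x.1, x.2.1), fun _ => rfl, fun _ => rfl⟩ _ _ ?_
    intro x
    rfl
  have L2 : ∀ f : (Fin 4 → Fin 4) → ℝ, (∀ F, ¬ Function.Injective F → f F = 0) →
      ∑ F, f F = ∑ π : Equiv.Perm (Fin 4), f π := by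
    intro f hf
    symm
    refine Fintype.sum_of_injective (fun π : Equiv.Perm (Fin 4) => (π : Fin 4 → Fin 4))
      DFunLike.coe_injective _ _ ?_ (fun _ => rfl)
    intro F hF
    refine hf F fun hinj => hF ?_
    exact ⟨Equiv.ofBijective F (Finite.injective_iff_bijective.mp hinj), rfl⟩
  have L3 : gmw (fun σ => w σ * aw a b₀ b₁ σ) ((S.erase b₀).erase b₁) C = X id id := by
    unfold gmw
    simp only [hX]
    refine Finset.sum_congr rfl fun σ _ => Finset.sum_congr rfl fun τ _ => ?_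
    simp only [aw, hR, id]
    ring
  rw [L1, L2 _ (fun F hF => Finset.sum_eq_zero fun G _ => by rw [Z1 F G hF, mul_zero]), L3]
  unfold kap2
  rw [Finset.sum_mul]
  refine Finset.sum_congr rfl fun π _ => ?_
  rw [L2 _ (fun G hG => by rw [Z2 _ G hG, mul_zero]), Finset.sum_mul]
  refine Finset.sum_congr rfl fun π' _ => ?_
  rw [P3]
  ring

end Pool.Agent.W740.HD
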